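import Pool.Agent.W586.CS.Stm

/-!
Project CS, part SQ: the square of the free operator is twice the number operator.
-/

set_option autoImplicit false
open MvPolynomial

namespace Pool.Agent.W393.CS.SQ

open Pool.Agent.W586.CS

/-- square of a sum of pairwise anticommuting elements -/
lemma sum_sq {d : ℕ} {ι : Type} (T : Fin d → (V d ι →ₗ[ℝ] V d ι))
    (h : ∀ j k, j ≠ k → ∀ f, T j (T k f) = - T k (T j f)) (f : V d ι) :
    (∑ j, T j) ((∑ j, T j) f) = ∑ j, T j (T j f) := by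
  have h2 : ∑ j, ∑ k, T j (T k f) = ∑ j, ∑ k, T k (T j f) := Finset.sum_comm
  have h1 : (∑ j, T j) ((∑ j, T j) f) = ∑ j, ∑ k, T j (T k f) := by
    rw [h2]
    simp only [LinearMap.sum_apply, map_sum]
  have h3 : ∑ j, ∑ k, T j (T k f) + ∑ j, ∑ k, T j (T k f)
      = ∑ j, T j (T j f) + ∑ j, T j (T j f) := by
    nth_rewrite 2 [h2]
    rw [← Finset.sum_add_distrib, ← Finset.sum_add_distrib]
    refine Finset.sum_congr rfl fun j _ => ?_
    rw [← Finset.sum_add_distrib]
    rw [Finset.sum_eq_single j]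
    · intro k _ hk
      rw [h j k (Ne.symm hk)]; simp
    · intro hj; exact absurd (Finset.mem_univ j) hj
  rw [h1]
  have h4 : (2 : ℝ) • ∑ j, ∑ k, T j (T k f) = (2 : ℝ) • ∑ j, T j (T j f) := by
    rw [two_smul, two_smul]; exact h3
  have := congrArg (fun v => (1 / 2 : ℝ) • v) h4
  simpa [smul_smul] using this

lemma sum_ep {d : ℕ} (I : Finset (Fin d)) : ∑ j, (ep j I + 1) = 2 * (I.card : ℝ) := by
  have : ∀ j : Fin d, ep j I + 1 = if j ∈ I then (2 : ℝ) else 0 := by
    intro j; unfold ep; split_ifs <;> norm_num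
  simp only [this]
  rw [Finset.sum_ite_mem]
  simp [mul_comm]

lemma pd_comm {d : ℕ} (i j : Fin d) (p : MvPolynomial (Fin d) ℝ) :
    pderiv i (pderiv j p) = pderiv j (pderiv i p) := by
  have h : ⁅(pderiv i : Derivation ℝ (MvPolynomial (Fin d) ℝ) (MvPolynomial (Fin d) ℝ)),
      (pderiv j : Derivation ℝ (MvPolynomial (Fin d) ℝ) (MvPolynomial (Fin d) ℝ))⁆ = 0 := by
    apply MvPolynomial.derivation_ext
    intro k
    rw [Derivation.commutator_apply]
    simp only [pderiv_X, Pi.single_apply]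
    split_ifs <;> simp
  have := congrArg (fun D => D p) h
  simpa [Derivation.commutator_apply, sub_eq_zero] using this

theorem main (hR : S_REL) : S_SQ := by
  intro d ι f
  obtain ⟨hGG, hGG', hCC, hCC', hGC, hCG⟩ := hR d ι
  have hXG : ∀ (j k : Fin d) (f : V d ι), Xm ι j (G ι k f) = G ι k (Xm ι j f) := by
    intro j k f; funext I a; simp [Xm, G]
  have hXC : ∀ (j k : Fin d) (f : V d ι), Xm ι j (Cc ι k f) = Cc ι k (Xm ι j f) := by
    intro j k f; funext I a; simp [Xm, Cc]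
  have hDG : ∀ (j k : Fin d) (f : V d ι), Dm ι j (G ι k f) = G ι k (Dm ι j f) := by
    intro j k f; funext I a; simp [Dm, G]
  have hDC : ∀ (j k : Fin d) (f : V d ι), Dm ι j (Cc ι k f) = Cc ι k (Dm ι j f) := by
    intro j k f; funext I a; simp [Dm, Cc]
  have hXX : ∀ (j k : Fin d) (f : V d ι), Xm ι j (Xm ι k f) = Xm ι k (Xm ι j f) := by
    intro j k f; funext I a; simp [Xm, mul_left_comm]
  have hDD : ∀ (j k : Fin d) (f : V d ι), Dm ι j (Dm ι k f) = Dm ι k (Dm ι j f) := by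
    intro j k f; funext I a
    simp only [Dm, LinearMap.coe_mk, AddHom.coe_mk]
    exact pd_comm _ _ _
  have hDX : ∀ (j k : Fin d) (f : V d ι), j ≠ k → Dm ι j (Xm ι k f) = Xm ι k (Dm ι j f) := by
    intro j k f hjk; funext I a
    simp [Dm, Xm, Derivation.leibniz, pderiv_X, Ne.symm hjk]
  have hDX' : ∀ (j : Fin d) (f : V d ι), Dm ι j (Xm ι j f) = Xm ι j (Dm ι j f) + f := by
    intro j f; funext I a
    simp [Dm, Xm, Derivation.leibniz, pderiv_X]
  unfold B0
  rw [sum_sq]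
  · have key : ∀ j : Fin d,
        (G ι j ∘ₗ Xm ι j + Cc ι j ∘ₗ (Dm ι j - Xm ι j))
          ((G ι j ∘ₗ Xm ι j + Cc ι j ∘ₗ (Dm ι j - Xm ι j)) f)
        = (2 : ℝ) • Xm ι j (Dm ι j f) - Dm ι j (Dm ι j f) + Cc ι j (G ι j f) + f := by
      intro j
      simp only [LinearMap.add_apply, LinearMap.comp_apply, LinearMap.sub_apply, map_add, map_sub,
        hXG, hXC, hDG, hDC, hDX', hGC, hCC, hGG]
      module
    rw [Finset.sum_congr rfl fun j _ => key j]
    funext I a
    simp only [Finset.sum_apply, Pi.add_apply, Pi.sub_apply, Pi.smul_apply, hCG, MM]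
    have h1 : ∀ j : Fin d, (2 : ℝ) • (Xm ι j (Dm ι j f)) I a - (Dm ι j (Dm ι j f)) I a
        + ep j I • f I a + f I a =
        (2 : ℝ) • (X j * pderiv j (f I a) - (1 / 2 : ℝ) • pderiv j (pderiv j (f I a)))
          + (ep j I + 1) • f I a := by
      intro j
      simp only [Xm, Dm, LinearMap.coe_mk, AddHom.coe_mk]
      module
    rw [Finset.sum_congr rfl fun j _ => h1 j, Finset.sum_add_distrib, ← Finset.smul_sum,
      ← Finset.sum_smul, sum_ep]
    module
  · intro j k hjk f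
    simp only [LinearMap.add_apply, LinearMap.comp_apply, LinearMap.sub_apply, map_add, map_sub,
      hXG, hXC, hDG, hDC, hDX j k _ hjk, hDX k j _ (Ne.symm hjk), hGC]
    rw [hGG' j k _ hjk, hXX j k, hDD j k]
    rw [hCC' j k (Dm ι k (Dm ι j f)) hjk, hCC' j k (Xm ι k (Xm ι j f)) hjk,
      hCC' j k (Xm ι k (Dm ι j f)) hjk, hCC' j k (Xm ι j (Dm ι k f)) hjk]
    module

end Pool.Agent.W393.CS.SQ
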